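import Pool.Agent.T9h20.TG.Spec2

/-!
# Piece (SZ): the sizes in a block
-/

set_option autoImplicit false

open Set

namespace Pool.Agent.T9h67.TG

open Pool.Agent.T9h20.TA (mon mx)
open Pool.Agent.T9h20.TE (DD DD_conn mx_eq ne_of_mem)
open Pool.Agent.T9h81.TE (abs_mon)
open Pool.Agent.T9h20.TF (Fr Fc MM)
open Pool.Agent.T9h20.TG

/-- The core: finitely many exponentials with exponents which are equal or at distance `≥ 1`. -/
theorem size_core {k : ℕ} (β e : Fin k → ℝ) (hβ : ∀ i, 0 ≤ β i)
    (he : ∀ i j, e i ≠ e j → 1 ≤ |e i - e j|) (p r : ℝ) (hpr : p ≤ r)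
    (hex : ∃ i, 0 < β i) :
    ∃ B : Finset ℝ, B.card ≤ k ^ 2 + 2 ∧ p ∈ B ∧ r ∈ B ∧ (∀ x ∈ B, p ≤ x ∧ x ≤ r) ∧
      ∀ G y y' : ℝ, 0 < G → y ∈ Icc p r → y' ∈ Icc p r →
        (∀ x' ∈ B, G ≤ |y - x'| ∧ G ≤ |y' - x'|) →
        (∀ x' ∈ B, ¬ (y < x' ∧ x' < y') ∧ ¬ (y' < x' ∧ x' < y)) →
        ∃ i0 : Fin k, ∀ i, ∀ x ∈ ({y, y'} : Set ℝ),
          β i * Real.exp (e i * x) ≤ β i0 * Real.exp (e i0 * x) ∧
          (e i ≠ e i0 →
            β i * Real.exp (e i * x) ≤ Real.exp (-G) * (β i0 * Real.exp (e i0 * x))) := by
  classical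
  set cross : Fin k × Fin k → ℝ := fun q =>
    (Real.log (β q.2) - Real.log (β q.1)) / (e q.1 - e q.2) with hcross
  set Z : Finset ℝ := ((Finset.univ : Finset (Fin k × Fin k)).image cross).filter
    (fun z => z ∈ Ioo p r) with hZ
  have hpB : p ∈ insert p (insert r Z) := Finset.mem_insert_self _ _
  have hrB : r ∈ insert p (insert r Z) :=
    Finset.mem_insert_of_mem (Finset.mem_insert_self _ _)
  refine ⟨insert p (insert r Z), ?_, hpB, hrB, ?_, ?_⟩
  · have h1 : Z.card ≤ k ^ 2 := by
      refine (Finset.card_filter_le _ _).trans (Finset.card_image_le.trans ?_)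
      rw [Finset.card_univ, Fintype.card_prod, Fintype.card_fin, sq]
    have h2 := Finset.card_insert_le p (insert r Z)
    have h3 := Finset.card_insert_le r Z
    omega
  · intro x hx
    rw [Finset.mem_insert, Finset.mem_insert] at hx
    rcases hx with rfl | rfl | hx
    · exact ⟨le_rfl, hpr⟩
    · exact ⟨hpr, le_rfl⟩
    · have := (Finset.mem_filter.mp hx).2
      exact ⟨this.1.le, this.2.le⟩
  · intro G y y' hG hy hy' hdist hbet
    obtain ⟨i1, hi1⟩ := hex
    obtain ⟨i0, -, hi0⟩ := Finset.exists_max_image (Finset.univ : Finset (Fin k))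
      (fun i => β i * Real.exp (e i * y)) ⟨i1, Finset.mem_univ _⟩
    have hpos0 : 0 < β i0 := by
      have h1 := hi0 i1 (Finset.mem_univ _)
      have h2 : 0 < β i1 * Real.exp (e i1 * y) := mul_pos hi1 (Real.exp_pos _)
      have h3 : 0 < β i0 * Real.exp (e i0 * y) := lt_of_lt_of_le h2 h1
      exact (pos_iff_pos_of_mul_pos h3).mpr (Real.exp_pos _)
    refine ⟨i0, fun i x hx => ?_⟩
    have hE0 : 0 < β i0 * Real.exp (e i0 * x) := mul_pos hpos0 (Real.exp_pos _)
    rcases (hβ i).eq_or_lt with h0 | hpos
    · rw [← h0, zero_mul]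
      exact ⟨hE0.le, fun _ => (mul_pos (Real.exp_pos _) hE0).le⟩
    · have hmain : e i ≠ e i0 →
          β i * Real.exp (e i * x) ≤ Real.exp (-G) * (β i0 * Real.exp (e i0 * x)) := by
        intro hne
        have hlog : ∀ (j : Fin k) (w : ℝ), 0 < β j →
            Real.log (β j * Real.exp (e j * w)) = Real.log (β j) + e j * w := by
          intro j w hj
          rw [Real.log_mul hj.ne' (Real.exp_pos _).ne', Real.log_exp]
        have hy1 : Real.log (β i) + e i * y ≤ Real.log (β i0) + e i0 * y := by
          rw [← hlog i0 y hpos0, ← hlog i y hpos]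
          exact Real.log_le_log (mul_pos hpos (Real.exp_pos _)) (hi0 i (Finset.mem_univ _))
        set D := e i - e i0 with hD
        set Δ := Real.log (β i0) - Real.log (β i) with hΔ
        have hD0 : D ≠ 0 := sub_ne_zero.2 hne
        have hD1 : 1 ≤ |D| := he i i0 hne
        set z := Δ / D with hzdef
        have hzD : D * z = Δ := by rw [hzdef]; field_simp
        have hmem : z ∈ Ioo p r → z ∈ insert p (insert r Z) := by
          intro h
          refine Finset.mem_insert_of_mem (Finset.mem_insert_of_mem ?_)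
          rw [hZ, Finset.mem_filter]
          exact ⟨Finset.mem_image.mpr ⟨(i, i0), Finset.mem_univ _, rfl⟩, h⟩
        have hp := hdist p hpB
        have hr := hdist r hrB
        rw [abs_of_nonneg (by linarith [hy.1] : 0 ≤ y - p),
          abs_of_nonneg (by linarith [hy'.1] : 0 ≤ y' - p)] at hp
        rw [abs_of_nonpos (by linarith [hy.2] : y - r ≤ 0),
          abs_of_nonpos (by linarith [hy'.2] : y' - r ≤ 0)] at hr
        -- both points on the same side of `z`, at distance at least `G`
        have hside : (G ≤ y - z ∧ G ≤ y' - z) ∨ (G ≤ z - y ∧ G ≤ z - y') := by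
          by_cases hzI : z ∈ Ioo p r
          · have hzB := hmem hzI
            obtain ⟨h1, h2⟩ := hdist z hzB
            obtain ⟨h3, h4⟩ := hbet z hzB
            rcases le_total y z with h5 | h5
            · right
              rw [abs_of_nonpos (by linarith)] at h1
              refine ⟨by linarith, ?_⟩
              have h6 : y' ≤ z := by
                by_contra h7
                exact h3 ⟨by linarith, not_le.1 h7⟩
              rw [abs_of_nonpos (by linarith)] at h2
              linarith
            · left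
              rw [abs_of_nonneg (by linarith)] at h1
              refine ⟨by linarith, ?_⟩
              have h6 : z ≤ y' := by
                by_contra h7
                exact h4 ⟨not_le.1 h7, by linarith⟩
              rw [abs_of_nonneg (by linarith)] at h2
              linarith
          · rcases le_or_gt z p with h5 | h5
            · left
              exact ⟨by linarith [hp.1], by linarith [hp.2]⟩
            · have h6 : r ≤ z := by
                by_contra h7
                exact hzI ⟨h5, not_le.1 h7⟩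
              right
              exact ⟨by linarith [hr.1], by linarith [hr.2]⟩
        have hyD : D * (y - z) ≤ 0 := by
          rw [mul_sub, hzD, hD, hΔ]
          linarith
        have hxG : D * (x - z) ≤ -G := by
          have hxside : (G ≤ y - z ∧ G ≤ x - z) ∨ (G ≤ z - y ∧ G ≤ z - x) := by
            rcases hx with rfl | hx
            · rcases hside with h | h
              · exact Or.inl ⟨h.1, h.1⟩
              · exact Or.inr ⟨h.1, h.1⟩
            · rw [mem_singleton_iff] at hx
              rw [hx]
              exact hside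
          rcases hxside with ⟨h1, h2⟩ | ⟨h1, h2⟩
          · have h3 : D ≤ 0 := by
              by_contra h4
              have := mul_pos (not_le.1 h4) (by linarith : 0 < y - z)
              linarith
            rw [abs_of_nonpos h3] at hD1
            nlinarith
          · have h3 : 0 ≤ D := by
              by_contra h4
              have := mul_pos_of_neg_of_neg (not_le.1 h4) (by linarith : y - z < 0)
              linarith
            rw [abs_of_nonneg h3] at hD1
            nlinarith
        have hfin : Real.log (β i) + e i * x ≤ -G + (Real.log (β i0) + e i0 * x) := by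
          rw [mul_sub, hzD, hD, hΔ] at hxG
          linarith
        calc β i * Real.exp (e i * x) = Real.exp (Real.log (β i) + e i * x) := by
              rw [Real.exp_add, Real.exp_log hpos]
          _ ≤ Real.exp (-G + (Real.log (β i0) + e i0 * x)) := Real.exp_le_exp.2 hfin
          _ = Real.exp (-G) * (β i0 * Real.exp (e i0 * x)) := by
              rw [Real.exp_add, Real.exp_add, Real.exp_log hpos0]
      refine ⟨?_, hmain⟩
      by_cases heq : e i = e i0
      · rw [heq]
        have h1 := hi0 i (Finset.mem_univ _)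
        rw [heq] at h1
        have h2 : β i ≤ β i0 := le_of_mul_le_mul_right h1 (Real.exp_pos _)
        exact mul_le_mul_of_nonneg_right h2 (Real.exp_pos _).le
      · refine (hmain heq).trans ?_
        have h1 : Real.exp (-G) ≤ 1 := Real.exp_le_one_iff.2 (by linarith)
        exact mul_le_of_le_one_left hE0.le h1

theorem sSize : SSize := by
  intro k q t _ b d al c a s0 p r hpr hc hb hDD
  classical
  set β : Fin k → ℝ := fun i => |b i| * ∏ j, |c j (s0 j)| ^ al i j with hβ
  set E : Fin k → ℕ := fun i => d i + ∑ j, al i j * a j (s0 j) with hE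
  have hβ0 : ∀ i, 0 ≤ β i := fun i =>
    mul_nonneg (abs_nonneg _) (Finset.prod_nonneg fun j _ => pow_nonneg (abs_nonneg _) _)
  have hcne : ∀ j, c j (s0 j) ≠ 0 := fun j => ne_of_mem (hc j) (hDD j).1
  have hex : ∃ i, 0 < β i := by
    obtain ⟨i, hi⟩ := hb
    exact ⟨i, mul_pos (abs_pos.mpr hi)
      (Finset.prod_pos fun j _ => pow_pos (abs_pos.mpr (hcne j)) _)⟩
  have hMM : ∀ i, ∀ x ∈ Icc p r, MM b (fun i => (d i : ℝ)) al c (fun j s => (a j s : ℝ)) i x =
      β i * Real.exp ((E i : ℝ) * x) := by
    intro i x hx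
    have h1 : ∀ j, mx (c j) (fun s => (a j s : ℝ)) x =
        |c j (s0 j)| * Real.exp ((a j (s0 j) : ℝ) * x) := by
      intro j
      rw [mx_eq (DD_conn (hc j) (hDD j).1 (hDD j).2 hx.1 hx.2), abs_mon]
    unfold MM
    rw [Finset.prod_congr rfl fun j _ => by rw [h1 j, mul_pow, ← Real.exp_nat_mul],
      Finset.prod_mul_distrib, ← Real.exp_sum]
    have h2 : (E i : ℝ) * x = (d i : ℝ) * x + ∑ j, (al i j : ℝ) * ((a j (s0 j) : ℝ) * x) := by
      rw [hE]
      push_cast
      rw [add_mul, Finset.sum_mul]
      congr 1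
      exact Finset.sum_congr rfl fun j _ => by ring
    rw [h2, Real.exp_add, hβ]
    simp only
    ring
  have he : ∀ i j : Fin k, (E i : ℝ) ≠ (E j : ℝ) → 1 ≤ |(E i : ℝ) - (E j : ℝ)| := by
    intro i j hij
    have h1 : (E i : ℤ) - (E j : ℤ) ≠ 0 := by
      intro h
      apply hij
      have h2 : (E i : ℤ) = (E j : ℤ) := by linarith
      exact_mod_cast h2
    have h2 := Int.one_le_abs h1
    have h3 : ((1 : ℤ) : ℝ) ≤ ((|(E i : ℤ) - (E j : ℤ)| : ℤ) : ℝ) := Int.cast_le.2 h2
    push_cast at h3
    exact h3
  refine ⟨?_, ?_⟩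
  · intro y hy y' hy' i
    rw [hMM i y hy, hMM i y' hy']
    change β i * Real.exp ((E i : ℝ) * y') =
      β i * Real.exp ((E i : ℝ) * y) * Real.exp ((E i : ℝ) * (y' - y))
    generalize β i = u
    rw [mul_assoc, ← Real.exp_add]
    congr 2
    ring
  · obtain ⟨B, hB1, hpB, hrB, hB2, hB3⟩ := size_core β (fun i => (E i : ℝ)) hβ0 he p r hpr.le hex
    refine ⟨B, hB1, hpB, hrB, hB2, fun G y y' hG hy hy' hd hbt => ?_⟩
    obtain ⟨i0, hi0⟩ := hB3 G y y' hG hy hy' hd hbt
    refine ⟨i0, fun i x hx => ?_⟩
    have hxI : x ∈ Icc p r := by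
      rcases hx with rfl | hx
      · exact hy
      · rw [mem_singleton_iff] at hx
        rw [hx]
        exact hy'
    rw [hMM i x hxI, hMM i0 x hxI]
    obtain ⟨h1, h2⟩ := hi0 i x hx
    refine ⟨h1, fun hne => h2 ?_⟩
    intro h
    apply hne
    exact_mod_cast h

end Pool.Agent.T9h67.TG
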